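import Mathlib
import Pool.Agent.W222.UABC.Units

/-!
# Counting units by the mean of their logarithms, uniformly in all number fields
-/

set_option autoImplicit false

namespace Pool.Agent.Y733.UD

open NumberField IsDedekindDomain Finset Pool.Agent.H691R3
open Pool.Agent.W222.UABC (exists_int_of_fv_le card_infinitePlace_le small_card small_finite)

theorem summable_abs {ε : ℝ} (hε : 0 < ε) :
    Summable (fun k : ℤ => Real.exp (-(ε * |(k : ℝ)|))) := by
  have h0 : Summable (fun k : ℕ => Real.exp (-ε) ^ k) :=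
    summable_geometric_of_lt_one (Real.exp_pos _).le (by rw [Real.exp_lt_one_iff]; linarith)
  apply Summable.of_nat_of_neg
  · refine h0.congr fun k => ?_
    rw [← Real.exp_nat_mul]
    congr 1
    push_cast
    rw [Nat.abs_cast]
    ring
  · refine h0.congr fun k => ?_
    rw [← Real.exp_nat_mul]
    congr 1
    push_cast
    rw [abs_neg, Nat.abs_cast]
    ring

/-- the number of integral vectors weighted by the sum of the absolute values -/
theorem vec_sum {ε : ℝ} (hε : 0 < ε) : ∃ S : ℝ, 0 ≤ S ∧ ∀ (ι : Type) [Fintype ι]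
    (E : Finset (ι → ℤ)),
    ∑ t ∈ E, Real.exp (-(ε * ∑ i, |(t i : ℝ)|)) ≤ Real.exp (S * Fintype.card ι) := by
  classical
  have hs := summable_abs hε
  set S0 : ℝ := ∑' k : ℤ, Real.exp (-(ε * |(k : ℝ)|)) with hS0
  have h1 : 1 ≤ S0 := by
    have := hs.le_tsum 0 (fun k _ => (Real.exp_pos _).le)
    simpa using this
  refine ⟨Real.log S0, Real.log_nonneg h1, fun ι _ E => ?_⟩
  set T : ι → Finset ℤ := fun i => E.image fun t => t i with hT
  calc ∑ t ∈ E, Real.exp (-(ε * ∑ i, |(t i : ℝ)|))
      = ∑ t ∈ E, ∏ i, Real.exp (-(ε * |(t i : ℝ)|)) := by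
        refine Finset.sum_congr rfl fun t _ => ?_
        rw [← Real.exp_sum, Finset.mul_sum, Finset.sum_neg_distrib]
    _ ≤ ∑ t ∈ Fintype.piFinset T, ∏ i, Real.exp (-(ε * |(t i : ℝ)|)) := by
        refine Finset.sum_le_sum_of_subset_of_nonneg ?_
          (fun t _ _ => Finset.prod_nonneg fun i _ => (Real.exp_pos _).le)
        intro t ht
        rw [Fintype.mem_piFinset]
        intro i
        exact Finset.mem_image_of_mem _ ht
    _ = ∏ i, ∑ k ∈ T i, Real.exp (-(ε * |(k : ℝ)|)) := by
        rw [Finset.prod_univ_sum]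
    _ ≤ ∏ _i : ι, S0 := by
        refine Finset.prod_le_prod (fun i _ => Finset.sum_nonneg fun k _ => (Real.exp_pos _).le)
          fun i _ => ?_
        exact hs.sum_le_tsum _ fun k _ => (Real.exp_pos _).le
    _ = Real.exp (Real.log S0 * Fintype.card ι) := by
        rw [Finset.prod_const, Finset.card_univ, mul_comm, Real.exp_nat_mul,
          Real.exp_log (by linarith)]

section OneField

variable {K : Type} [Field K] [NumberField K]

/-- units with nearly equal absolute values -/
theorem fibre_units (G : Finset K)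
    (hG : ∀ y ∈ G, y ≠ 0 ∧ (∀ v : HeightOneSpectrum (𝓞 K), fv v y = 1))
    (hGc : ∀ y ∈ G, ∀ y' ∈ G, ∀ w : InfinitePlace K,
      ⌊Real.log (w y)⌋ = ⌊Real.log (w y')⌋) :
    (G.card : ℝ) ≤ Real.exp (Real.log 9 * Module.finrank ℚ K) := by
  classical
  have hlog3 : (1 : ℝ) < Real.log 3 := by
    rw [Real.lt_log_iff_exp_lt (by norm_num)]
    linarith [Real.exp_one_lt_d9]
  rcases G.eq_empty_or_nonempty with rfl | ⟨y0, hy0⟩
  · simp only [Finset.card_empty, Nat.cast_zero]
    positivity
  obtain ⟨hy00, hy0v⟩ := hG y0 hy0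
  have hex : ∀ y : K, ∃ a : 𝓞 K, y ∈ G → (a : K) = y / y0 := by
    intro y
    by_cases hy : y ∈ G
    · obtain ⟨hyn, hyv⟩ := hG y hy
      obtain ⟨a, ha⟩ := exists_int_of_fv_le (x := y / y0) (fun v => by
        rw [map_div₀, hyv v, hy0v v, div_one])
      exact ⟨a, fun _ => ha⟩
    · exact ⟨0, fun h => absurd h hy⟩
  choose f hf using hex
  have hinj : Set.InjOn f (G : Set K) := by
    intro x hx y hy hxy
    have h1 := hf x (Finset.mem_coe.1 hx)
    have h2 := hf y (Finset.mem_coe.1 hy)
    rw [hxy, h2] at h1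
    exact ((div_left_inj' hy00).1 h1).symm
  have hsub : ((G.image f : Finset (𝓞 K)) : Set (𝓞 K)) ⊆
      {a : 𝓞 K | ∀ σ : K →+* ℂ, ‖σ a‖ < 3} := by
    intro a ha
    obtain ⟨y, hy, rfl⟩ := Finset.mem_image.1 (Finset.mem_coe.1 ha)
    intro σ
    rw [hf y hy]
    obtain ⟨hyn, hyv⟩ := hG y hy
    set w : InfinitePlace K := InfinitePlace.mk σ with hw
    have h1 : ‖σ (y / y0)‖ = w (y / y0) := by rw [hw, InfinitePlace.apply]
    rw [h1, map_div₀]
    have hwy : 0 < w y := InfinitePlace.pos_iff.2 hyn
    have hwy0 : 0 < w y0 := InfinitePlace.pos_iff.2 hy00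
    have h3 := hGc y hy y0 hy0 w
    have h4 : Real.log (w y) - Real.log (w y0) < 1 := by
      have h5 := Int.lt_floor_add_one (Real.log (w y))
      have h6 := Int.floor_le (Real.log (w y0))
      rw [h3] at h5
      linarith
    rw [← Real.log_div hwy.ne' hwy0.ne'] at h4
    have h5 : Real.log (w y / w y0) < Real.log 3 := h4.trans hlog3
    exact (Real.log_lt_log_iff (div_pos hwy hwy0) (by norm_num)).1 h5
  have h1 : (G.card : ℝ) ≤ (Set.ncard {a : 𝓞 K | ∀ σ : K →+* ℂ, ‖σ a‖ < 3} : ℝ) := by
    rw [← Finset.card_image_of_injOn hinj, ← Set.ncard_coe_finset]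
    exact_mod_cast Set.ncard_le_ncard hsub (small_finite 3)
  refine h1.trans ((small_card 3 (by norm_num)).trans (le_of_eq ?_))
  rw [mul_comm (Real.log 9), Real.exp_nat_mul, Real.exp_log (by norm_num)]
  norm_num

end OneField

/-- units of bounded mean logarithm -/
theorem units_card {ε : ℝ} (hε : 0 < ε) : ∃ F : ℝ, 0 ≤ F ∧
    ∀ (K : Type) [Field K] [NumberField K],
      ∀ (X : ℝ) (E : Finset K), 
        (∀ y ∈ E, y ≠ 0 ∧ (∀ v : HeightOneSpectrum (𝓞 K), fv v y = 1) ∧
          ∑ w : InfinitePlace K, (w.mult : ℝ) * |Real.log (w y)| ≤ X) →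
        (E.card : ℝ) ≤ Real.exp (Module.finrank ℚ K * F + ε * X) := by
  classical
  obtain ⟨S, hS, hvec⟩ := vec_sum hε
  refine ⟨Real.log 9 + ε + S, by positivity, ?_⟩
  intro K _ _ X E hE
  set n := Module.finrank ℚ K with hn
  have hcn : (Fintype.card (InfinitePlace K) : ℝ) ≤ n := by
    exact_mod_cast card_infinitePlace_le (K := K)
  set g : K → InfinitePlace K → ℤ := fun y w => ⌊Real.log (w y)⌋ with hg
  have hfib : ∀ t ∈ E.image g, ((E.filter fun y => g y = t).card : ℝ) ≤
      Real.exp (Real.log 9 * n) := by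
    intro t _
    refine fibre_units _ ?_ ?_
    · intro y hy
      obtain ⟨h1, h2, _⟩ := hE y (Finset.mem_filter.1 hy).1
      exact ⟨h1, h2⟩
    · intro y hy y' hy' w
      have h1 := (Finset.mem_filter.1 hy).2.trans (Finset.mem_filter.1 hy').2.symm
      exact congrFun h1 w
  have himg : ((E.image g).card : ℝ) ≤ Real.exp (ε * (X + n)) * Real.exp (S * n) := by
    have h3 : ((E.image g).card : ℝ) = ∑ t ∈ E.image g, (1 : ℝ) := by simp
    have h4 : ∑ t ∈ E.image g, (1 : ℝ) ≤
        ∑ t ∈ E.image g, Real.exp (ε * (X + n)) * Real.exp (-(ε * ∑ w, |(t w : ℝ)|)) := by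
      refine Finset.sum_le_sum fun t ht => ?_
      obtain ⟨y, hy, rfl⟩ := Finset.mem_image.1 ht
      obtain ⟨_, _, hX⟩ := hE y hy
      rw [← Real.exp_add]
      apply Real.one_le_exp
      have h5 : ∑ w : InfinitePlace K, |((g y w : ℤ) : ℝ)| ≤ X + n := by
        calc ∑ w : InfinitePlace K, |((g y w : ℤ) : ℝ)|
            ≤ ∑ w : InfinitePlace K, ((w.mult : ℝ) * |Real.log (w y)| + 1) := by
              refine Finset.sum_le_sum fun w _ => ?_
              have e1 : |((⌊Real.log (w y)⌋ : ℤ) : ℝ)| ≤ |Real.log (w y)| + 1 := by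
                have h6 := Int.floor_le (Real.log (w y))
                have h7 := Int.lt_floor_add_one (Real.log (w y))
                have h8 := neg_abs_le (Real.log (w y))
                have h9 := le_abs_self (Real.log (w y))
                rw [abs_le]
                constructor <;> linarith
              have e2 : (1 : ℝ) ≤ w.mult := by exact_mod_cast w.mult_pos
              have e3 := abs_nonneg (Real.log (w y))
              have e4 : |Real.log (w y)| ≤ w.mult * |Real.log (w y)| := by nlinarith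
              exact e1.trans (by linarith)
          _ = ∑ w : InfinitePlace K, (w.mult : ℝ) * |Real.log (w y)| +
                Fintype.card (InfinitePlace K) := by
              rw [Finset.sum_add_distrib, Finset.sum_const, Finset.card_univ, nsmul_eq_mul, mul_one]
          _ ≤ X + n := by linarith
      nlinarith
    rw [h3]
    refine h4.trans ?_
    rw [← Finset.mul_sum]
    refine mul_le_mul_of_nonneg_left ((hvec _ _).trans ?_) (Real.exp_pos _).le
    apply Real.exp_le_exp.2
    exact mul_le_mul_of_nonneg_left hcn hS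
  have hcard : (E.card : ℝ) = ∑ t ∈ E.image g, ((E.filter fun y => g y = t).card : ℝ) := by
    rw [Finset.card_eq_sum_card_image g E]
    push_cast
    rfl
  rw [hcard]
  calc ∑ t ∈ E.image g, ((E.filter fun y => g y = t).card : ℝ)
      ≤ ∑ _t ∈ E.image g, Real.exp (Real.log 9 * n) := Finset.sum_le_sum hfib
    _ = ((E.image g).card : ℝ) * Real.exp (Real.log 9 * n) := by
        rw [Finset.sum_const, nsmul_eq_mul]
    _ ≤ Real.exp (ε * (X + n)) * Real.exp (S * n) * Real.exp (Real.log 9 * n) :=
        mul_le_mul_of_nonneg_right himg (Real.exp_pos _).le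
    _ = _ := by
        rw [← Real.exp_add, ← Real.exp_add]
        congr 1
        ring

end Pool.Agent.Y733.UD
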