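import Mathlib
import Pool.Agent.Y733.UD.Per

/-!
# The number of the representations `t = a / b` with small integers `a`, `b`
-/

set_option autoImplicit false

namespace Pool.Agent.Y733.UD

open NumberField IsDedekindDomain Finset Pool.Agent.H691R3 Pool.Agent.W223.AK
open Pool.Agent.W222.UABC (cS_empty quo quo_ne fv_quo)

section OneField

variable {K : Type} [Field K] [NumberField K]

/-- the ideal of a denominator `b` of `t`, divided by the exact denominator -/
theorem exists_ideal {t b : K} (ht0 : t ≠ 0) (hb : b ≠ 0) (h1 : ∀ v : Pr K, fv v b ≤ 1)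
    (h2 : ∀ v : Pr K, fv v (t * b) ≤ 1) : ∃ P : Idl K,
      (∀ v, fv v b * max (fv v t) 1 = (Nv v) ^ (-(P v : ℤ))) ∧
      len P + ht t = ∑ w : InfinitePlace K, (w.mult : ℝ) *
        (Real.log (w b) + Real.log (max (w t) 1)) := by
  classical
  have hex : ∀ v : Pr K, ∃ n : ℕ, fv v b * max (fv v t) 1 = (Nv v) ^ (-(n : ℤ)) := by
    intro v
    obtain ⟨a, ha⟩ := max_zpow v ht0
    obtain ⟨c, hc⟩ := fv_zpow v hb
    have h3 : fv v b * max (fv v t) 1 ≤ 1 := by
      rcases max_choice (fv v t) 1 with h | h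
      · rw [h, ← map_mul, mul_comm]
        exact h2 v
      · rw [h, mul_one]
        exact h1 v
    rw [ha, hc, ← zpow_add₀ (Nv_pos v).ne'] at h3
    have h4 : c + a ≤ 0 := by
      by_contra h5
      push Not at h5
      have := one_lt_zpow₀ (Nv_one_lt v) h5
      linarith
    refine ⟨(-(c + a)).toNat, ?_⟩
    rw [ha, hc, Int.toNat_of_nonneg (by omega), ← zpow_add₀ (Nv_pos v).ne']
    congr 1
    ring
  choose n hn using hex
  have hone : ∀ v : Pr K, fv v t = 1 → fv v b = 1 → n v = 0 := by
    intro v ht1 hb1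
    have h5 := hn v
    rw [ht1, hb1, max_self, one_mul, zpow_neg] at h5
    by_contra h3
    have h4 : (1 : ℝ) < (Nv v) ^ ((n v : ℕ) : ℤ) := by
      rw [zpow_natCast]
      exact one_lt_pow₀ (Nv_one_lt v) h3
    have h6 : ((Nv v) ^ ((n v : ℕ) : ℤ))⁻¹ < 1 := inv_lt_one_of_one_lt₀ h4
    rw [← h5] at h6
    exact lt_irrefl _ h6
  have hfin : (Function.support fun v : Pr K => n v).Finite := by
    refine ((fv_support_finite ht0).union ((fv_support_finite hb))).subset ?_
    intro v hv
    by_contra hcon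
    simp only [Set.mem_union, Set.mem_ofPred_eq, not_or, not_not] at hcon
    exact hv (hone v hcon.1 hcon.2)
  refine ⟨Finsupp.ofSupportFinite _ hfin, hn, ?_⟩
  set P : Idl K := Finsupp.ofSupportFinite _ hfin with hP
  have hPn : ∀ v, P v = n v := fun v => rfl
  set s : Finset (Pr K) := (fv_support_finite ht0).toFinset ∪
    (fv_support_finite hb).toFinset with hs
  have h3 : ∀ v, v ∉ s → fv v t = 1 ∧ fv v b = 1 := by
    intro v hvs
    rw [hs, Finset.mem_union, Set.Finite.mem_toFinset, Set.Finite.mem_toFinset] at hvs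
    simp only [Set.mem_ofPred_eq] at hvs
    constructor
    · by_contra h; exact hvs (Or.inl h)
    · by_contra h; exact hvs (Or.inr h)
  have h4 := product_formula ∅ hb s (fun v _ hvs => (h3 v hvs).2) (Finset.disjoint_empty_left _)
  have h5 := ht_eq ∅ t s (fun v _ hvs => (h3 v hvs).1.le) (Finset.disjoint_empty_left _)
  rw [sum_Spl, Finset.sum_empty, add_zero] at h4 h5
  simp only [mt_inl, av_inl] at h4 h5
  have hsupp : P.support ⊆ s := by
    intro v hv
    rw [Finsupp.mem_support_iff] at hv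
    by_contra hvs
    exact hv (hone v (h3 v hvs).1 (h3 v hvs).2)
  have h6 : len P = -(∑ v ∈ s, Real.log (max (fv v t) 1)) - ∑ v ∈ s, Real.log (fv v b) := by
    rw [len_eq_sum hsupp, ← Finset.sum_neg_distrib, ← Finset.sum_sub_distrib]
    refine Finset.sum_congr rfl fun v _ => ?_
    have h7 : (0 : ℝ) < max (fv v t) 1 := lt_max_of_lt_right one_pos
    have h8 := congrArg Real.log (hn v)
    rw [Real.log_mul ((fv v).pos hb).ne' h7.ne', Real.log_zpow] at h8
    rw [hPn]
    push_cast at h8
    linarith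
  rw [h6, h5]
  simp only [mul_add]
  rw [Finset.sum_add_distrib]
  linarith

end OneField

/-- the number of the denominators of `t` -/
theorem fibre_card {ε : ℝ} (hε : 0 < ε) : ∃ A : ℝ, 0 ≤ A ∧
    ∀ (K : Type) [Field K] [NumberField K], ∀ (t : K) (M : ℝ) (F : Finset K), t ≠ 0 →
      (∀ b ∈ F, b ≠ 0 ∧ (∀ v : Pr K, fv v b ≤ 1) ∧ (∀ v : Pr K, fv v (t * b) ≤ 1) ∧
        ∀ w : InfinitePlace K, Real.log (w b) ≤ M ∧ Real.log (w (t * b)) ≤ M) →
      (F.card : ℝ) ≤ Real.exp (Module.finrank ℚ K * A +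
        (1 + ε) * (Module.finrank ℚ K * M - ht t)) := by
  classical
  obtain ⟨A1, hA1, h1⟩ := ideals_card (half_pos hε)
  obtain ⟨A2, hA2, h2⟩ := units_card (ε := ε / 4) (by positivity)
  refine ⟨A1 + A2, by positivity, ?_⟩
  intro K _ _ t M F ht0 hF
  set n := Module.finrank ℚ K with hn
  set R : ℝ := n * M - ht t with hR
  have hmult : ∑ w : InfinitePlace K, (w.mult : ℝ) = n := by
    have := InfinitePlace.sum_mult_eq (K := K)
    exact_mod_cast this
  have hex : ∀ b : K, ∃ P : Idl K, b ∈ F → (∀ v, fv v b * max (fv v t) 1 = (Nv v) ^ (-(P v : ℤ))) ∧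
      len P + ht t = ∑ w : InfinitePlace K, (w.mult : ℝ) *
        (Real.log (w b) + Real.log (max (w t) 1)) := by
    intro b
    by_cases hb : b ∈ F
    · obtain ⟨hb0, hb1, hb2, _⟩ := hF b hb
      obtain ⟨P, hP⟩ := exists_ideal ht0 hb0 hb1 hb2
      exact ⟨P, fun _ => hP⟩
    · exact ⟨0, fun h => absurd h hb⟩
  choose P hP using hex
  have hloc : ∀ b ∈ F, ∀ w : InfinitePlace K,
      0 ≤ M - (Real.log (w b) + Real.log (max (w t) 1)) := by
    intro b hb w
    obtain ⟨hb0, _, _, hw⟩ := hF b hb
    have hwb : 0 < w b := InfinitePlace.pos_iff.2 hb0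
    have hwt : 0 < w t := InfinitePlace.pos_iff.2 ht0
    obtain ⟨h3, h4⟩ := hw w
    rcases max_choice (w t) 1 with h | h
    · rw [h]
      rw [map_mul, Real.log_mul hwt.ne' hwb.ne'] at h4
      linarith
    · rw [h, Real.log_one]
      linarith
  have hsum : ∀ b ∈ F, ∑ w : InfinitePlace K, (w.mult : ℝ) *
      (M - (Real.log (w b) + Real.log (max (w t) 1))) = R - len (P b) := by
    intro b hb
    have h3 := (hP b hb).2
    simp only [mul_sub]
    rw [Finset.sum_sub_distrib, ← h3, ← Finset.sum_mul, hmult, hR]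
    ring
  have hlen : ∀ b ∈ F, len (P b) ≤ R := by
    intro b hb
    have h3 := hsum b hb
    have h4 : 0 ≤ ∑ w : InfinitePlace K, (w.mult : ℝ) *
      (M - (Real.log (w b) + Real.log (max (w t) 1))) :=
      Finset.sum_nonneg fun w _ => mul_nonneg (Nat.cast_nonneg _) (hloc b hb w)
    linarith
  have himg : ((F.image P).card : ℝ) ≤ Real.exp (n * A1 + (1 + ε / 2) * R) := by
    refine h1 K R _ ?_
    intro a ha
    obtain ⟨b, hb, rfl⟩ := Finset.mem_image.1 ha
    exact hlen b hb
  have hfib : ∀ a ∈ F.image P, ((F.filter fun b => P b = a).card : ℝ) ≤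
      Real.exp (n * A2 + ε / 4 * (2 * R)) := by
    intro a _
    set G := F.filter fun b => P b = a with hG
    rcases G.eq_empty_or_nonempty with hGe | ⟨b0, hb0⟩
    · rw [hGe, Finset.card_empty, Nat.cast_zero]
      positivity
    have hGm : ∀ b ∈ G, b ∈ F ∧ P b = a := fun b hb => Finset.mem_filter.1 hb
    obtain ⟨hb0F, hb0a⟩ := hGm b0 hb0
    have hb00 := (hF b0 hb0F).1
    have hinj : Set.InjOn (fun b : K => b / b0) (G : Set K) := fun x _ y _ hxy =>
      (div_left_inj' hb00).1 hxy
    rw [← Finset.card_image_of_injOn hinj]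
    refine h2 K _ _ ?_
    intro y hy
    obtain ⟨b, hb, rfl⟩ := Finset.mem_image.1 hy
    obtain ⟨hbF, hba⟩ := hGm b hb
    have hbne := (hF b hbF).1
    refine ⟨div_ne_zero hbne hb00, ?_, ?_⟩
    · intro v
      have e1 := (hP b hbF).1 v
      have e2 := (hP b0 hb0F).1 v
      rw [hba] at e1
      rw [hb0a] at e2
      have hm : (0 : ℝ) < max (fv v t) 1 := lt_max_of_lt_right one_pos
      have e3 : fv v b = fv v b0 := mul_right_cancel₀ hm.ne' (e1.trans e2.symm)
      rw [map_div₀, e3, div_self ((fv v).pos hb00).ne']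
    · calc ∑ w : InfinitePlace K, (w.mult : ℝ) * |Real.log (w (b / b0))|
          ≤ ∑ w : InfinitePlace K, ((w.mult : ℝ) *
              (M - (Real.log (w b) + Real.log (max (w t) 1))) +
              (w.mult : ℝ) * (M - (Real.log (w b0) + Real.log (max (w t) 1)))) := by
            refine Finset.sum_le_sum fun w _ => ?_
            have hw1 : 0 < w b := InfinitePlace.pos_iff.2 hbne
            have hw2 : 0 < w b0 := InfinitePlace.pos_iff.2 hb00
            rw [map_div₀, Real.log_div hw1.ne' hw2.ne', ← mul_add]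
            refine mul_le_mul_of_nonneg_left ?_ (Nat.cast_nonneg _)
            have h3 := hloc b hbF w
            have h4 := hloc b0 hb0F w
            rw [abs_le]
            constructor <;> linarith
        _ ≤ 2 * R := by
            rw [Finset.sum_add_distrib, hsum b hbF, hsum b0 hb0F]
            have := len_nonneg (P b)
            have := len_nonneg (P b0)
            linarith
  have hcard : (F.card : ℝ) = ∑ a ∈ F.image P, ((F.filter fun b => P b = a).card : ℝ) := by
    rw [Finset.card_eq_sum_card_image P F]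
    push_cast
    rfl
  rw [hcard]
  calc ∑ a ∈ F.image P, ((F.filter fun b => P b = a).card : ℝ)
      ≤ ∑ _a ∈ F.image P, Real.exp (n * A2 + ε / 4 * (2 * R)) := Finset.sum_le_sum hfib
    _ = ((F.image P).card : ℝ) * Real.exp (n * A2 + ε / 4 * (2 * R)) := by
        rw [Finset.sum_const, nsmul_eq_mul]
    _ ≤ Real.exp (n * A1 + (1 + ε / 2) * R) * Real.exp (n * A2 + ε / 4 * (2 * R)) :=
        mul_le_mul_of_nonneg_right himg (Real.exp_pos _).le
    _ = _ := by
        rw [← Real.exp_add]
        congr 1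
        ring

end Pool.Agent.Y733.UD
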