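import Mathlib
import Pool.Agent.Y733.UD.Low

/-!
# Uniform counts over all number fields: the points `(x, 1 - x, -1)`
-/

set_option autoImplicit false

namespace Pool.Agent.Y733.UD

open NumberField IsDedekindDomain Finset Pool.Agent.H691R3 Pool.Agent.W223.AK
open Pool.Agent.W222.UABC (cS_empty small_finite)

section OneField

variable {K : Type} [Field K] [NumberField K]

/-- the triple attached to `x` -/
def tri (x : K) : Fin 3 → K := ![x, 1 - x, -1]

theorem tri_sum (x : K) : tri x 0 + tri x 1 + tri x 2 = 0 := by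
  show x + (1 - x) + -1 = 0
  ring

theorem tri_quot (x : K) : tri x 0 / tri x 1 = x / (1 - x) := rfl

theorem Pt_tri {x : K} (h0 : x ≠ 0) (h1 : x ≠ 1) : Pt (x / (1 - x)) := by
  have h1' : (1 : K) - x ≠ 0 := sub_ne_zero.2 h1.symm
  refine ⟨div_ne_zero h0 h1', ?_⟩
  have : x / (1 - x) + 1 = 1 / (1 - x) := by
    field_simp
    ring
  rw [this]
  exact div_ne_zero one_ne_zero h1'

theorem tri_inj {x y : K} (h1 : x ≠ 1) (h2 : y ≠ 1) (h : x / (1 - x) = y / (1 - y)) : x = y := by
  have h1' : (1 : K) - x ≠ 0 := sub_ne_zero.2 h1.symm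
  have h2' : (1 : K) - y ≠ 0 := sub_ne_zero.2 h2.symm
  rw [div_eq_div_iff h1' h2'] at h
  linear_combination h

theorem H3_tri {x : K} (h1 : x ≠ 1) : ht (x / (1 - x)) ≤ H3 (tri x) ∧
    H3 (tri x) ≤ ht (x / (1 - x)) + Module.finrank ℚ K * Real.log 2 := by
  have h1' : tri x 1 ≠ 0 := sub_ne_zero.2 h1.symm
  have h := H3_bounds (x := tri x) h1' (tri_sum x)
  rw [tri_quot] at h
  have h2 : lossK K = Module.finrank ℚ K * Real.log 2 := by
    unfold lossK
    rw [← Finset.sum_mul]
    congr 1
    have := InfinitePlace.sum_mult_eq (K := K)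
    exact_mod_cast this
  rwa [h2] at h

end OneField

/-- **points of bounded height and conductor** -/
theorem upper {ε : ℝ} (hε : 0 < ε) : ∃ A : ℝ, 0 ≤ A ∧
    ∀ (K : Type) [Field K] [NumberField K], ∀ (b q : ℝ) (E : Finset K),
      (∀ x ∈ E, x ≠ 0 ∧ x ≠ 1 ∧ H3 (tri x) ≤ Module.finrank ℚ K * b ∧
        R3 ∅ (tri x) ≤ Module.finrank ℚ K * q) →
      (E.card : ℝ) ≤ Real.exp (Module.finrank ℚ K * (A + 2 / 3 * q + ε * b)) := by
  classical
  obtain ⟨A, hA, h⟩ := per_field hε
  refine ⟨A, hA, ?_⟩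
  intro K _ _ b q E hE
  set n := Module.finrank ℚ K with hn
  have hinj : Set.InjOn (fun x : K => x / (1 - x)) (E : Set K) := fun x hx y hy hxy =>
    tri_inj (hE x (Finset.mem_coe.1 hx)).2.1 (hE y (Finset.mem_coe.1 hy)).2.1 hxy
  rw [← Finset.card_image_of_injOn hinj]
  refine (h K (n * b) (n * q) _ ?_).trans (le_of_eq ?_)
  · intro t ht
    obtain ⟨x, hx, rfl⟩ := Finset.mem_image.1 ht
    obtain ⟨h0, h1, h2, h3⟩ := hE x hx
    have hPt := Pt_tri h0 h1
    obtain ⟨P, hP⟩ := exists_isP ∅ hPt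
    have h1' : tri x 1 ≠ 0 := sub_ne_zero.2 h1.symm
    have hR := R3_eq (T := ∅) (T' := ∅) (fun v => by simp) (x := tri x) h1' (tri_sum x)
      (P := P) hP
    rw [hR] at h3
    exact ⟨hPt, (H3_tri h1).1.trans h2, P, hP, h3⟩
  · congr 1
    ring

/-- the conductor is at most the third power of the height, up to a constant -/
theorem R3_le {K : Type} [Field K] [NumberField K] {x : K} (h0 : x ≠ 0) (h1 : x ≠ 1) :
    R3 ∅ (tri x) ≤ 3 * H3 (tri x) + Module.finrank ℚ K * (3 * Real.log 2) := by
  have hPt := Pt_tri h0 h1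
  obtain ⟨P, hP⟩ := exists_isP ∅ hPt
  have h1' : tri x 1 ≠ 0 := sub_ne_zero.2 h1.symm
  have hR := R3_eq (T := ∅) (T' := ∅) (fun v => by simp) (x := tri x) h1' (tri_sum x)
    (P := P) hP
  have h2 : ∀ l, rl (P l) ≤ H3 (tri x) + Module.finrank ℚ K * Real.log 2 := by
    intro l
    have h2 := len_le hPt hP l
    rw [cS_empty] at h2
    linarith [rl_le_len (P l), (H3_tri h1).1]
  rw [hR]
  linarith [h2 0, h2 1, h2 2]

/-- upper bound for all points -/
theorem total_upper {ε : ℝ} (hε : 0 < ε) : ∃ A : ℝ, 0 ≤ A ∧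
    ∀ (K : Type) [Field K] [NumberField K], ∀ (b : ℝ) (E : Finset K),
      (∀ x ∈ E, x ≠ 0 ∧ x ≠ 1 ∧ H3 (tri x) ≤ Module.finrank ℚ K * b) →
      (E.card : ℝ) ≤ Real.exp (Module.finrank ℚ K * (A + (2 + ε) * b)) := by
  obtain ⟨A, hA, h⟩ := upper hε
  refine ⟨A + 2 * Real.log 2, by positivity, ?_⟩
  intro K _ _ b E hE
  refine (h K b (3 * b + 3 * Real.log 2) E ?_).trans (le_of_eq ?_)
  · intro x hx
    obtain ⟨h0, h1, h2⟩ := hE x hx
    refine ⟨h0, h1, h2, ?_⟩
    have := R3_le h0 h1
    linarith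
  · congr 1
    ring

/-- **lower bound for all points, large heights** -/
theorem total_lower {ε : ℝ} (hε : 0 < ε) (hε1 : ε ≤ 1) : ∃ A : ℝ, 0 ≤ A ∧
    ∀ (K : Type) [Field K] [NumberField K], ∀ b : ℝ, Real.log 16 + rd K / 2 ≤ b →
      ∃ E : Finset K, (∀ x ∈ E, x ≠ 0 ∧ x ≠ 1 ∧ H3 (tri x) ≤ Module.finrank ℚ K * b) ∧
        Real.exp (Module.finrank ℚ K * ((2 - 4 * ε) * b - (2 + ε) * rd K - A)) ≤ E.card := by
  classical
  obtain ⟨A, hA, h⟩ := low_count hε hε1
  refine ⟨A + 2 * Real.log 2, by positivity, ?_⟩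
  intro K _ _ b hb
  set n := Module.finrank ℚ K with hn
  have hn0 : (0 : ℝ) < n := by linarith [finrank_one_le K]
  have hl2 : 0 ≤ Real.log 2 := Real.log_nonneg (by norm_num)
  have h16 : Real.log 16 = Real.log 8 + Real.log 2 := by
    rw [← Real.log_mul (by norm_num) (by norm_num)]
    norm_num
  obtain ⟨E, hE, hcard⟩ := h K (b - Real.log 2) (by linarith)
  have hne : ∀ t ∈ E, (1 : K) + t ≠ 0 := fun t ht => by
    rw [add_comm]
    exact (hE t ht).1.2
  have hinj : Set.InjOn (fun t : K => t / (1 + t)) (E : Set K) := by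
    intro t ht s hs hts
    simp only at hts
    rw [div_eq_div_iff (hne t (Finset.mem_coe.1 ht)) (hne s (Finset.mem_coe.1 hs))] at hts
    linear_combination hts
  refine ⟨E.image fun t => t / (1 + t), ?_, ?_⟩
  · intro x hx
    obtain ⟨t, ht, rfl⟩ := Finset.mem_image.1 hx
    obtain ⟨hPt, hht⟩ := hE t ht
    have h1 := hne t ht
    have hx1 : t / (1 + t) ≠ 1 := by
      intro h2
      rw [div_eq_one_iff_eq h1] at h2
      have : (1 : K) = 0 := by linear_combination -h2
      exact one_ne_zero this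
    refine ⟨div_ne_zero hPt.1 h1, hx1, ?_⟩
    have h3 : t / (1 + t) / (1 - t / (1 + t)) = t := by
      have : 1 - t / (1 + t) = 1 / (1 + t) := by
        field_simp
        ring
      rw [this]
      field_simp
    have h4 := (H3_tri hx1).2
    rw [h3] at h4
    have : (n : ℝ) * (b - Real.log 2) = n * b - n * Real.log 2 := by ring
    linarith
  · rw [Finset.card_image_of_injOn hinj]
    refine le_trans (Real.exp_le_exp.2 ?_) hcard
    apply mul_le_mul_of_nonneg_left _ hn0.le
    nlinarith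

/-- the height of an integral point -/
theorem H3_int {K : Type} [Field K] [NumberField K] (a : 𝓞 K) (T : ℝ) (hT : 0 ≤ T)
    (h : ∀ w : InfinitePlace K, w (a : K) < T) :
    H3 (tri (a : K)) ≤ Module.finrank ℚ K * Real.log (T + 1) := by
  unfold H3
  have h1 : ∀ v : Pr K, Real.log (max (FinitePlace.mk v (tri (a : K) 0))
      (max (FinitePlace.mk v (tri (a : K) 1)) (FinitePlace.mk v (tri (a : K) 2)))) = 0 := by
    intro v
    have e0 : fv v (tri (a : K) 0) ≤ 1 := fv_int_le v a
    have e1 : fv v (tri (a : K) 1) ≤ 1 := by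
      have h2 := fv_int_le v (1 - a)
      have h3 : ((1 - a : 𝓞 K) : K) = 1 - (a : K) := by simp
      rw [h3] at h2
      exact h2
    have e2 : fv v (tri (a : K) 2) = 1 := by
      show fv v (-1) = 1
      rw [map_neg_eq_map, map_one]
    have e3 : max (fv v (tri (a : K) 0)) (max (fv v (tri (a : K) 1)) (fv v (tri (a : K) 2))) = 1 := by
      rw [e2, max_eq_right e1, max_eq_right e0]
    show Real.log (max (fv v (tri (a : K) 0))
      (max (fv v (tri (a : K) 1)) (fv v (tri (a : K) 2)))) = 0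
    rw [e3, Real.log_one]
  rw [finsum_congr h1, finsum_zero, add_zero]
  have hmult : ∑ w : InfinitePlace K, (w.mult : ℝ) = Module.finrank ℚ K := by
    have := InfinitePlace.sum_mult_eq (K := K)
    exact_mod_cast this
  rw [← hmult, Finset.sum_mul]
  refine Finset.sum_le_sum fun w _ => mul_le_mul_of_nonneg_left ?_ (Nat.cast_nonneg _)
  have g2 : w (tri (a : K) 2) = 1 := by
    show w.1 (-1) = 1
    rw [map_neg_eq_map, map_one]
  have g1 : w (tri (a : K) 1) ≤ 1 + w (a : K) := by
    show w.1 (1 - (a : K)) ≤ 1 + w.1 (a : K)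
    have := w.1.sub_le_add 1 (a : K)
    rwa [map_one] at this
  have g0 : w (tri (a : K) 0) = w (a : K) := rfl
  have hp : 0 < max (w (tri (a : K) 0)) (max (w (tri (a : K) 1)) (w (tri (a : K) 2))) := by
    rw [g2]
    exact lt_max_of_lt_right (lt_max_of_lt_right one_pos)
  refine Real.log_le_log hp ?_
  have hw := h w
  rw [g0, g2]
  refine max_le (by linarith) (max_le (by linarith) (by linarith))

/-- **lower bound for all points, small heights** -/
theorem total_lower_simple (K : Type) [Field K] [NumberField K] (b : ℝ)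
    (hb : Real.log 16 + rd K / 2 ≤ b) :
      ∃ E : Finset K, (∀ x ∈ E, x ≠ 0 ∧ x ≠ 1 ∧ H3 (tri x) ≤ Module.finrank ℚ K * b) ∧
        Real.exp (Module.finrank ℚ K * (b - rd K / 2 - Real.log 12)) ≤ E.card := by
  classical
  set n := Module.finrank ℚ K with hn
  have hn1 : (1 : ℝ) ≤ n := finrank_one_le K
  have hrd := rd_nonneg K
  have hl2 : 0 ≤ Real.log 2 := Real.log_nonneg (by norm_num)
  have h16 : Real.log 16 = 4 * Real.log 2 := by
    rw [show (16 : ℝ) = 2 ^ 4 by norm_num, Real.log_pow]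
    norm_num
  have hb16 : (16 : ℝ) ≤ Real.exp b := by
    rw [← Real.log_le_iff_le_exp (by norm_num)]
    linarith
  set T : ℝ := Real.exp b - 1 with hT
  have hT0 : 0 < T := by linarith
  set M : ℝ := Real.log T with hM
  have hMT : Real.exp M = T := Real.exp_log hT0
  have hMb : b - Real.log 3 / 3 ≤ M := by
    -- `T ≥ exp b * 15 / 16`
    have h1 : Real.exp b * (15 / 16) ≤ T := by linarith
    have h2 : Real.log (Real.exp b * (15 / 16)) ≤ M :=
      Real.log_le_log (by positivity) h1
    rw [Real.log_mul (Real.exp_pos _).ne' (by norm_num), Real.log_exp] at h2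
    have h3 : -(Real.log 3 / 3) ≤ Real.log (15 / 16) := by
      have h4 : -Real.log (15 / 16) ≤ Real.log 3 / 3 := by
        rw [← Real.log_inv]
        have h5 : Real.log ((15 / 16 : ℝ)⁻¹) ≤ (15 / 16 : ℝ)⁻¹ - 1 :=
          Real.log_le_sub_one_of_pos (by norm_num)
        have h6 : (1 : ℝ) < Real.log 3 := by
          rw [Real.lt_log_iff_exp_lt (by norm_num)]
          linarith [Real.exp_one_lt_d9]
        have h7 : (15 / 16 : ℝ)⁻¹ - 1 ≤ 1 / 3 := by norm_num
        linarith
      linarith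
    linarith
  obtain ⟨S, hS, hScard⟩ := exists_box (K := K) M
  refine ⟨S.erase 1, ?_, ?_⟩
  · intro x hx
    rw [Finset.mem_erase] at hx
    obtain ⟨h0, ⟨a, rfl⟩, hw⟩ := hS x hx.2
    refine ⟨h0, hx.1, ?_⟩
    have h1 := H3_int a T hT0.le (fun w => by rw [← hMT]; exact hw w)
    have h2 : T + 1 = Real.exp b := by rw [hT]; ring
    rw [h2, Real.log_exp] at h1
    exact h1
  · have h1 := Finset.pred_card_le_card_erase (s := S) (a := (1 : K))
    have h4 : (S.card : ℝ) ≤ ((S.erase 1).card : ℝ) + 1 := by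
      exact_mod_cast (by omega : S.card ≤ (S.erase 1).card + 1)
    have h5 : Real.exp (n * (b - rd K / 2 - Real.log 12)) * 3 ≤
        Real.exp (n * (M - Real.log 2 - rd K / 2)) := by
      have h6 : (3 : ℝ) = Real.exp (Real.log 3) := (Real.exp_log (by norm_num)).symm
      conv_lhs => rw [h6]
      rw [← Real.exp_add]
      apply Real.exp_le_exp.2
      have h7 : Real.log 12 = Real.log 2 + Real.log 6 := by
        rw [← Real.log_mul (by norm_num) (by norm_num)]
        norm_num
      have h8 : Real.log 6 = Real.log 2 + Real.log 3 := by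
        rw [← Real.log_mul (by norm_num) (by norm_num)]
        norm_num
      have h9 : Real.log 3 ≤ n * (Real.log 6 - Real.log 3 / 3) := by
        have g1 : Real.log 3 ≤ Real.log 6 - Real.log 3 / 3 := by
          rw [h8]
          have g2 : Real.log 3 ≤ 3 * Real.log 2 := by
            have : Real.log 3 ≤ Real.log 8 := Real.log_le_log (by norm_num) (by norm_num)
            have g3 : Real.log 8 = 3 * Real.log 2 := by
              rw [show (8 : ℝ) = 2 ^ 3 by norm_num, Real.log_pow]
              norm_num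
            linarith
          linarith
        have g4 : 0 ≤ Real.log 3 := Real.log_nonneg (by norm_num)
        nlinarith
      have h10 : n * (b - rd K / 2 - Real.log 12) + n * (Real.log 6 - Real.log 3 / 3) ≤
          n * (M - Real.log 2 - rd K / 2) := by
        rw [← mul_add]
        apply mul_le_mul_of_nonneg_left _ (by linarith)
        linarith
      linarith
    have h11 : 1 ≤ Real.exp (n * (b - rd K / 2 - Real.log 12)) := by
      apply Real.one_le_exp
      apply mul_nonneg (by linarith)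
      have : Real.log 12 ≤ Real.log 16 := Real.log_le_log (by norm_num) (by norm_num)
      linarith
    linarith

end Pool.Agent.Y733.UD
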